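import Pool.Agent.Helper18.UW.GoalsZ

/-! Packet Z10bt (project UW): the moving point in the zone. -/

set_option autoImplicit false

namespace Pool.Agent.Helper24.UW

open Finset
open Pool.Agent.Helper18.EW hiding Par Zon
open Pool.Agent.Helper18.UW
open Pool.Agent.Helper43.Hw (T na va lz Play aa ac sc oo sk U Dd Sd Pn nx bb np GoalH1 GoalH4)

theorem kap_mono {μ R N : ℕ} {κ x : ℕ → ℕ} (hP : Play μ R N κ x) {a b : ℕ} (hab : a ≤ b)
    (hb : b < R) : κ a ≤ κ b := by
  induction b, hab using Nat.le_induction with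
  | base => exact le_rfl
  | succ b _ ih => exact (ih (by omega)).trans (hP.mono b hb)

theorem par_mu {μ R K b l Lg q : ℕ} (h : Par4 μ R K b l Lg q) : 1 ≤ μ ∧ μ + 2 ≤ R ∧ 1 ≤ b := by
  have h1 := h.l1
  have h2 := h.R1
  have h3 := h.L1
  have h4 := h.b1
  have h5 := h.b2
  have hb : 1 ≤ b := by
    calc 1 ≤ 2 ^ 42 * 1 := by norm_num
      _ ≤ 2 ^ 42 * Lg := Nat.mul_le_mul_left _ h3
      _ ≤ b := h4
  have hμ : 1 ≤ μ := by
    refine le_trans ?_ h5
    have : 0 < 2 ^ 33 * b * (q + 1) ^ 2 * l := by positivity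
    exact this
  exact ⟨hμ, by omega, hb⟩

/-- The growth of the moving point. -/
theorem growth (h4 : GoalH4) {μ R N K b l Lg q β s : ℕ} {W : ℤ} {L o k D S n κ x : ℕ → ℕ} {y : ℕ}
    (h : Zon4 μ R N K b l Lg q β s W L o k D S n κ x y) {t0 : ℕ}
    (h0 : s ≤ t0) (h0y : t0 ≤ y) (hκ : ∀ t, t0 ≤ t → t ≤ y → κ t = κ y) :
    ∀ t, t0 ≤ t → t ≤ y →
      (t - t0) * (b * l + (R - 1 - y)) + 2 ^ 14 * l * na μ R t ≤ 2 ^ 14 * l * x t := by
  obtain ⟨hμ, hR, -⟩ := par_mu h.par
  have hyR := h.y2
  have hyN := h.ex.2.1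
  have hJs := h.ext.Js
  intro t ht
  induction t, ht using Nat.le_induction with
  | base =>
    intro _
    have h5 := h.play.nat t0 (by omega) (by rw [hκ t0 le_rfl h0y]; exact hyN)
    rw [Nat.sub_self, zero_mul, zero_add]
    exact Nat.mul_le_mul_left _ h5
  | succ t ht ih =>
    intro hty
    have ih' := ih (by omega)
    have e1 : κ t = κ y := hκ t ht (by omega)
    have e2 : κ (t + 1) = κ y := hκ (t + 1) (by omega) hty
    have h5 := (h4 μ R N κ x hμ (by omega) h.play t (by omega)).1 (by rw [e1]; exact hyN)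
      (by rw [e2]; exact hyN)
    have hinc := h.ext.inc t (by omega) (by omega)
    rw [e1, e2, h.ex.2.2 t (by omega), h.ex.2.2 (t + 1) hty, Nat.sub_self, zero_mul, add_zero,
      hinc] at h5
    have h6 := h.ih t (by omega) (by omega)
    rw [e1] at h6
    have hna : na μ R (t + 1) = na μ R t + 1 := by
      unfold na; omega
    rw [hna] at h5 ⊢
    obtain ⟨f, hf⟩ : ∃ f, N = κ y + 1 + f := ⟨N - (κ y + 1), by omega⟩
    have hf1 : N - 1 - κ y = f := by omega
    have hf2 : N - κ y = f + 1 := by omega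
    rw [hf1] at h5
    rw [hf2] at h6
    have h7 : x (t + 1) + f = x t + β + o t + k t + oo μ R κ x t + sk μ κ x t := by
      have h8 : f * (na μ R t + 1) = f * na μ R t + f := by ring
      rw [h8] at h5
      omega
    set w := R - 1 - y with hw
    have h9 : w ≤ R - 1 - t := by omega
    have h10 : (t + 1 - t0) * (b * l + w) = (t - t0) * (b * l + w) + (b * l + w) := by
      have : t + 1 - t0 = (t - t0) + 1 := by omega
      rw [this]; ring
    have h11 : 2 ^ 14 * l * (x (t + 1) + f) =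
        2 ^ 14 * l * (x t + β + o t + k t + oo μ R κ x t + sk μ κ x t) := by
      rw [h7]
    have h12 : 2 ^ 14 * l * (x (t + 1) + f) = 2 ^ 14 * l * x (t + 1) + 2 ^ 14 * l * f := by ring
    have h13 : 2 ^ 14 * l * (x t + β + o t + k t + oo μ R κ x t + sk μ κ x t) =
        2 ^ 14 * l * x t + 2 ^ 14 * l * (β + o t + oo μ R κ x t) +
          2 ^ 14 * l * (k t + sk μ κ x t) := by ring
    have h14 : 2 ^ 14 * l * (na μ R t + 1) = 2 ^ 14 * l * na μ R t + 2 ^ 14 * l := by ring
    have h15 : 2 ^ 14 * l * (f + 1) = 2 ^ 14 * l * f + 2 ^ 14 * l := by ring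
    rw [h10, h14]
    rw [h12, h13] at h11
    rw [h15] at h6
    generalize 2 ^ 14 * l * x (t + 1) = A at *
    generalize 2 ^ 14 * l * x t = B at *
    generalize 2 ^ 14 * l * f = C at *
    generalize 2 ^ 14 * l * (β + o t + oo μ R κ x t) = E at *
    generalize 2 ^ 14 * l * (k t + sk μ κ x t) = F at *
    generalize 2 ^ 14 * l * na μ R t = G at *
    generalize (t - t0) * (b * l + w) = H at *
    generalize b * l = I at *
    omega

theorem goalZ10bt (h1 : GoalH1) (h4 : GoalH4) : GoalZ10bt := by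
  intro μ R N K b l Lg q β s W L o k D S n κ x y h
  obtain ⟨hμ, hR, -⟩ := par_mu h.par
  have hyR := h.y2
  have hyN := h.ex.2.1
  have hJs := h.ext.Js
  have hsy := h.sy
  have hP := h.play
  obtain ⟨g1, g2, g3, g4, g5, g6, g7⟩ := h1 μ R N κ x hμ hR hP
  have hx := hP.lt y (by omega)
  have hac : R - 1 - μ < ac R κ x (κ y) := by
    have hJ := h.pau (R - 1 - μ) (by omega) (by omega)
    have hx0 : x (R - 1 - μ) = 0 := by
      rw [hJ.2]; unfold na; omega
    refine ((g1 (κ y) (R - 1 - μ) (by omega)).2).1 ?_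
    unfold aa
    rw [hx0, if_neg (lt_irrefl 0), add_zero]
    exact kap_mono hP (by omega) (by omega)
  refine ⟨hac, ?_, ?_⟩
  · set F := (range y).filter (fun z => κ z = κ y ∧ na μ R z < x z) with hF
    have hkk : kk μ R κ x y = F.card := rfl
    rw [hkk]
    have hmem : ∀ z ∈ F, s ≤ z ∧ z < y ∧ κ z = κ y := by
      intro z hz
      rw [hF, mem_filter, mem_range] at hz
      obtain ⟨hzy, hzκ, hzx⟩ := hz
      refine ⟨?_, hzy, hzκ⟩
      by_contra hcon
      rcases Nat.lt_or_ge z (R - 1 - μ) with hzJ | hzJ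
      · have := (g2 (κ y) z (by omega)).1 ⟨hzκ, by omega⟩
        omega
      · have := (h.pau z (by omega) (by omega)).2
        omega
    rcases F.eq_empty_or_nonempty with hE | hE
    · rw [hE, card_empty, zero_mul]
      exact Nat.zero_le _
    · have h5 := hmem _ (F.min'_mem hE)
      set t0 := F.min' hE with ht0
      have hsub : F ⊆ Ico t0 y := by
        intro z hz
        rw [mem_Ico]
        exact ⟨F.min'_le z hz, (hmem z hz).2.1⟩
      have hcard : F.card ≤ y - t0 := by
        have := card_le_card hsub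
        rwa [Nat.card_Ico] at this
      have h7 := growth h4 h (t0 := t0) h5.1 h5.2.1.le
        (fun t ht hty => le_antisymm (kap_mono hP hty (by omega))
          (h5.2.2 ▸ kap_mono hP ht (by omega))) y h5.2.1.le le_rfl
      have h8 : 2 ^ 14 * l * (x y - na μ R y) = 2 ^ 14 * l * x y - 2 ^ 14 * l * na μ R y := by
        rw [Nat.mul_sub]
      have h9 := Nat.mul_le_mul_right (b * l + (R - 1 - y)) hcard
      rw [h8]
      generalize 2 ^ 14 * l * x y = A at *
      generalize 2 ^ 14 * l * na μ R y = B at *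
      generalize (y - t0) * (b * l + (R - 1 - y)) = C at *
      omega
  · unfold na
    omega

end Pool.Agent.Helper24.UW
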